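import Mathlib
import Pool.Agent.V11221.CovDim

/-!
# Separable zero-dimensional extensions: `Sn^{SM_0}(X, τ) ≤ dim X + 1`
-/

namespace Pool.Agent.Results.MP_085bfa_gt.StructuralNumber

open Set Filter Topology TopologicalSpace Cardinal
open Pool.Agent.V11221.CovDim

universe u

/-- `μ` is an extension of `τ`: each `τ`-open set is `μ`-open. -/
def IsExtension {X : Type u} (τ μ : TopologicalSpace X) : Prop :=
  ∀ U : Set X, IsOpen[τ] U → IsOpen[μ] U

/-- `(X, μ)` belongs to `SM_0`: it is separable metrizable with `ind = 0`, i.e. it is nonempty and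
has a base of sets which are both open and closed. -/
def SM0 {X : Type u} (μ : TopologicalSpace X) : Prop :=
  @MetrizableSpace X μ ∧ @SeparableSpace X μ ∧ Nonempty X ∧
    @IsTopologicalBasis X μ {U : Set X | @IsClopen X μ U}

/-- `τ` is the intersection of a family of `κ` many extensions which belong to `SM_0`. The
structural number `Sn^{SM_0}(X, τ)` is the least `κ` with this property. -/
def HasFamily {X : Type u} (τ : TopologicalSpace X) (κ : Cardinal.{0}) : Prop :=
  ∃ (I : Type) (μ : I → TopologicalSpace X), #I = κ ∧ (∀ i, IsExtension τ (μ i) ∧ SM0 (μ i)) ∧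
    ∀ U : Set X, IsOpen[τ] U ↔ ∀ i, IsOpen[μ i] U

/-- The structural number is at most `κ`. -/
def SnLE {X : Type u} (τ : TopologicalSpace X) (κ : Cardinal.{0}) : Prop :=
  ∃ κ' ≤ κ, HasFamily τ κ'

theorem exists_pairs (X : Type u) [TopologicalSpace X] [RegularSpace X] [Nonempty X]
    [SecondCountableTopology X] : ∃ U V : ℕ → Set X, (∀ k, closure (U k) ⊆ V k ∧ IsOpen (V k)) ∧
      ∀ (x : X) (W : Set X), IsOpen W → x ∈ W → ∃ k, x ∈ U k ∧ V k ⊆ W := by
  let P : Set (Set X × Set X) := {p | p.1 ∈ countableBasis X ∧ p.2 ∈ countableBasis X ∧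
    closure p.1 ⊆ p.2}
  have hb := isBasis_countableBasis X
  have hP : P.Countable := by
    apply ((countable_countableBasis X).prod (countable_countableBasis X)).mono
    rintro ⟨A, B⟩ ⟨h1, h2, -⟩
    exact ⟨h1, h2⟩
  have key : ∀ (x : X) (W : Set X), IsOpen W → x ∈ W → ∃ p ∈ P, x ∈ p.1 ∧ p.2 ⊆ W := by
    intro x W hW hx
    obtain ⟨V, hV, hxV, hVW⟩ := hb.exists_subset_of_mem_open hx hW
    obtain ⟨T, hT1, hT2, hT3⟩ := exists_mem_nhds_isClosed_subset ((hb.isOpen hV).mem_nhds hxV)
    obtain ⟨U, hU, hxU, hUT⟩ := hb.mem_nhds_iff.1 hT1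
    exact ⟨(U, V), ⟨hU, hV, (closure_minimal hUT hT2).trans hT3⟩, hxU, hVW⟩
  have hne : P.Nonempty := by
    obtain ⟨x⟩ := (inferInstance : Nonempty X)
    obtain ⟨p, hp, -⟩ := key x Set.univ isOpen_univ (Set.mem_univ x)
    exact ⟨p, hp⟩
  obtain ⟨e, he⟩ := hP.exists_eq_range hne
  refine ⟨fun k => (e k).1, fun k => (e k).2, fun k => ?_, fun x W hW hx => ?_⟩
  · have : e k ∈ P := he ▸ Set.mem_range_self k
    exact ⟨this.2.2, hb.isOpen this.2.1⟩
  · obtain ⟨p, hp, h1, h2⟩ := key x W hW hx
    rw [he] at hp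
    obtain ⟨k, rfl⟩ := hp
    exact ⟨k, h1, h2⟩

theorem main (X : Type u) [τ : TopologicalSpace X] [MetrizableSpace X] [SeparableSpace X]
    [Nonempty X] (n : ℕ) (hdim : CovDimLE X n) : ∃ μ : Fin (n + 1) → TopologicalSpace X,
      (∀ i, IsExtension τ (μ i) ∧ SM0 (μ i)) ∧ ∀ W : Set X, IsOpen W ↔ ∀ i, IsOpen[μ i] W := by
  classical
  have hsc : SecondCountableTopology X := by
    let _ := metrizableSpaceMetric X
    exact UniformSpace.secondCountable_of_separable X
  obtain ⟨U, V, hUV, hbase⟩ := exists_pairs X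
  have hg : ∀ k, ∃ g : C(X, ℝ), Set.EqOn g 0 (closure (U k)) ∧ Set.EqOn g 1 (V k)ᶜ ∧
      ∀ x, g x ∈ Set.Icc (0 : ℝ) 1 := fun k =>
    exists_continuous_zero_one_of_isClosed isClosed_closure (hUV k).2.isClosed_compl
      (Set.disjoint_compl_right_iff_subset.2 (hUV k).1)
  choose g hg0 hg1 hg2 using hg
  obtain ⟨F, hF1, hF2⟩ := general_position hdim (J := Fin (n + 1) × ℕ) (fun j => g j.2)
    (R := 1) (fun j x => abs_le.2 ⟨by linarith [(hg2 j.2 x).1], (hg2 j.2 x).2⟩)
    (show (0 : ℝ) < 1 / 4 by norm_num)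
  let C : Fin (n + 1) → ℕ → Set X := fun i k => {x | F (i, k) x < 1 / 2}
  have hUC : ∀ i k, U k ⊆ C i k := by
    intro i k x hx
    have h1 := hF1 (i, k) x
    have h2 : g k x = 0 := hg0 k (subset_closure hx)
    rw [abs_lt] at h1
    change F (i, k) x < 1 / 2
    linarith [h1.2]
  have hCV : ∀ i k, C i k ⊆ V k := by
    intro i k x hx
    by_contra hxV
    have h1 := hF1 (i, k) x
    have h2 : g k x = 1 := hg1 k hxV
    have h3 : F (i, k) x < 1 / 2 := hx
    rw [abs_lt] at h1
    linarith [h1.1]
  have hgood : ∀ x, ∃ i, ∀ k, F (i, k) x ≠ 1 / 2 := by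
    intro x
    by_contra hcon
    push Not at hcon
    choose k hk using hcon
    obtain ⟨i, hi⟩ := hF2 (fun i => (i, k i)) (fun i j hij => congrArg Prod.fst hij) x
    exact hi (hk i)
  let c : Fin (n + 1) → X → (ℕ → Bool) := fun i x k => decide (x ∈ C i k)
  let φ : Fin (n + 1) → X → X × (ℕ → Bool) := fun i x => (x, c i x)
  have hφinj : ∀ i, Function.Injective (φ i) := fun i x y h => congrArg Prod.fst h
  refine ⟨fun i => TopologicalSpace.induced (φ i) inferInstance, ?_, ?_⟩
  · intro i
    have hcont : @Continuous X _ (TopologicalSpace.induced (φ i) inferInstance) _ (φ i) :=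
      continuous_induced_dom
    constructor
    · intro W hW
      exact ⟨Prod.fst ⁻¹' W, hW.preimage continuous_fst, rfl⟩
    · refine ⟨?_, ?_, inferInstance, ?_⟩
      · exact @IsEmbedding.metrizableSpace X (X × (ℕ → Bool))
          (TopologicalSpace.induced (φ i) inferInstance) _ _ (φ i)
          (@IsEmbedding.mk _ _ (TopologicalSpace.induced (φ i) inferInstance) _ _
            (@IsInducing.mk _ _ (TopologicalSpace.induced (φ i) inferInstance) _ _ rfl) (hφinj i))
      · have h2 : @SecondCountableTopology X (TopologicalSpace.induced (φ i) inferInstance) :=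
          secondCountableTopology_induced X (X × (ℕ → Bool)) (φ i)
        exact @SecondCountableTopology.to_separableSpace X
          (TopologicalSpace.induced (φ i) inferInstance) h2
      · refine @isTopologicalBasis_of_isOpen_of_nhds X
          (TopologicalSpace.induced (φ i) inferInstance) _ (fun W hW => hW.2) ?_
        rintro x _ hx ⟨O, hO, rfl⟩
        obtain ⟨A, B, hA, hB, hxA, hxB, hAB⟩ := isOpen_prod_iff.1 hO x (c i x) hx
        obtain ⟨k, hk1, hk2⟩ := hbase x A hA hxA
        obtain ⟨B', hB'1, hB'2, hB'3⟩ :=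
          (isTopologicalBasis_isClopen (X := ℕ → Bool)).exists_subset_of_mem_open hxB hB
        have hclopen : IsClopen ({y : ℕ → Bool | y k = true} ∩ B') := by
          apply IsClopen.inter _ hB'1
          exact (isClopen_discrete {true}).preimage (continuous_apply k)
        refine ⟨(Prod.snd ∘ φ i) ⁻¹' ({y : ℕ → Bool | y k = true} ∩ B'), ?_, ?_, ?_⟩
        · exact @IsClopen.preimage X (ℕ → Bool) (TopologicalSpace.induced (φ i) inferInstance) _ _
            hclopen _ (@Continuous.comp X (X × (ℕ → Bool)) (ℕ → Bool)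
              (TopologicalSpace.induced (φ i) inferInstance) _ _ _ _ continuous_snd hcont)
        · exact ⟨decide_eq_true (hUC i k hk1), hB'2⟩
        · rintro y ⟨hy1, hy2⟩
          apply hAB
          refine ⟨hk2 (hCV i k ?_), hB'3 hy2⟩
          exact of_decide_eq_true hy1
  · intro W
    constructor
    · intro hW i
      exact ⟨Prod.fst ⁻¹' W, hW.preimage continuous_fst, rfl⟩
    · intro hW
      rw [isOpen_iff_mem_nhds]
      intro x hx
      obtain ⟨i, hi⟩ := hgood x
      obtain ⟨O, hO, hOW⟩ := hW i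
      have hca : ContinuousAt (φ i) x := by
        apply ContinuousAt.prodMk continuousAt_id
        rw [continuousAt_pi]
        intro k
        have hFc : Continuous fun y => F (i, k) y := (F (i, k)).continuous
        rcases lt_or_gt_of_ne (hi k) with h | h
        · have h1 : ∀ᶠ y in 𝓝 x, F (i, k) y < 1 / 2 :=
            (isOpen_lt hFc continuous_const).mem_nhds h
          have h2 : (fun y => c i y k) =ᶠ[𝓝 x] fun _ => true := by
            filter_upwards [h1] with y hy
            exact decide_eq_true hy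
          exact continuousAt_const.congr h2.symm
        · have h1 : ∀ᶠ y in 𝓝 x, 1 / 2 < F (i, k) y :=
            (isOpen_lt continuous_const hFc).mem_nhds h
          have h2 : (fun y => c i y k) =ᶠ[𝓝 x] fun _ => false := by
            filter_upwards [h1] with y hy
            exact decide_eq_false (not_lt.2 (le_of_lt hy))
          exact continuousAt_const.congr h2.symm
      have hxO : φ i x ∈ O := by
        have : x ∈ φ i ⁻¹' O := hOW ▸ hx
        exact this
      rw [← hOW]
      exact hca (hO.mem_nhds hxO)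

/-- For every separable metrizable space `(X, τ)` of covering dimension `n` the structural number
`Sn^{SM_0}(X, τ)` is at most `n + 1`. -/
theorem result (n : ℕ) (X : Type u) [τ : TopologicalSpace X] [MetrizableSpace X]
    [SeparableSpace X] [Nonempty X] (hdim : CovDimLE X n) :
    SnLE τ ((n + 1 : ℕ) : Cardinal.{0}) ∧ HasFamily τ ((n + 1 : ℕ) : Cardinal.{0}) := by
  have h : HasFamily τ ((n + 1 : ℕ) : Cardinal.{0}) := by
    obtain ⟨μ, h1, h2⟩ := main X n hdim
    exact ⟨Fin (n + 1), μ, by simp, h1, h2⟩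
  exact ⟨⟨_, le_rfl, h⟩, h⟩

end Pool.Agent.Results.MP_085bfa_gt.StructuralNumber
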